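import Pool.Agent.Helper53.CTG.Goals

/-!
# Project CTG (MP_8b4d68_lc), packet CTG-KBC (helper90)
-/

namespace Pool.Agent.Helper90.CTG

open Pool.Agent.Helper1.TE (Gad app cif)
open Pool.Agent.Helper53.CTG

variable {Z : Type}

theorem shl_V {g : Gad Z} (hg : OK9 g) (l : List ℕ) (hl : ∀ a ∈ l, a < g.K) :
    ∀ z, g.V z → g.V (shl g l z) := by
  induction l with
  | nil => intro z hz; exact hz
  | cons a l ih =>
    intro z hz
    have h1 : shl g (a :: l) z = shl g l (g.sh a z) := rfl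
    rw [h1]
    exact ih (fun b hb => hl b (List.mem_cons_of_mem _ hb)) _
      (hg.sh_V a (hl a List.mem_cons_self) z hz)

theorem shr_V {g : Gad Z} (hg : OK9 g) (k a : ℕ) (ha : a < g.K) (z : Z) (hz : g.V z) :
    g.V (shl g (List.replicate k a) z) :=
  shl_V hg _ (fun b hb => by rw [List.eq_of_mem_replicate hb]; exact ha) z hz

theorem app_V {g : Gad Z} (hg : OK9 g) {tst : ℕ → ℕ} {T v : ℕ} {z z' : Z} (hv : v < g.K)
    (hz : g.V z) (h : app g tst T v z = some z') : g.V z' := by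
  unfold app at h
  split_ifs at h with h1 h2 h3
  · cases h; exact hz
  · cases h; exact hg.hd_V v hv z hz
  · exact hg.un_V v hv z z' hz h

theorem ev_lt {K : ℕ} {t : ℕ → ℕ → ℕ → ℕ → ℕ → ℕ} (ht : ∀ m v x y z, t m v x y z < K)
    (q c : ℕ) : ∀ n v x, ev t q c n v x < K := by
  intro n v x
  cases n with
  | zero => exact ht _ _ _ _ _
  | succ n => exact ht _ _ _ _ _

theorem cut_lt {K c x : ℕ} (hc : 2 ^ c ≤ K) (hx : x < K) (q n : ℕ) : cut q c n x < K := by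
  unfold cut
  split_ifs
  · exact lt_of_lt_of_le (Nat.mod_lt _ (Nat.two_pow_pos c)) hc
  · exact hx

theorem enc_lt {K a y z : ℕ} (ha : a < K) (hy : y < K) (hz : z < K) : enc K a y z < K ^ 3 := by
  unfold enc
  have h1 : (a + 1) * K ^ 2 ≤ K * K ^ 2 := Nat.mul_le_mul_right _ ha
  have h2 : (y + 1) * K ≤ K * K := Nat.mul_le_mul_right _ hy
  nlinarith

theorem enc_A {K a y z : ℕ} (hy : y < K) (hz : z < K) : gA K (enc K a y z) = a := by
  unfold gA enc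
  have h2 : (y + 1) * K ≤ K * K := Nat.mul_le_mul_right _ hy
  have h3 : y * K + z < K ^ 2 := by nlinarith
  have h4 : 0 < K ^ 2 := by omega
  rw [Nat.add_assoc, Nat.add_comm, Nat.add_mul_div_right _ _ h4, Nat.div_eq_of_lt h3,
    Nat.zero_add]

theorem enc_Y {K a y z : ℕ} (hy : y < K) (hz : z < K) : gY K (enc K a y z) = y := by
  unfold gY enc
  have h1 : a * K ^ 2 + y * K + z = z + (y + a * K) * K := by ring
  rw [h1, Nat.add_mul_div_right _ _ (by omega), Nat.div_eq_of_lt hz, Nat.zero_add,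
    Nat.add_mul_mod_self_right, Nat.mod_eq_of_lt hy]

theorem enc_Z {K a y z : ℕ} (hz : z < K) : gZ K (enc K a y z) = z := by
  unfold gZ enc
  have h1 : a * K ^ 2 + y * K + z = z + (y + a * K) * K := by ring
  rw [h1, Nat.add_mul_mod_self_right, Nat.mod_eq_of_lt hz]

theorem nrm0 (K a : ℕ) : nrm K 0 (enc K a 0 0) := by
  refine ⟨fun _ => ?_, fun h => absurd h (by norm_num)⟩
  unfold enc
  simp

theorem nrm1 (K a y : ℕ) : nrm K 1 (enc K a y 0) := by
  refine ⟨fun h => absurd h (by norm_num), fun _ => ?_⟩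
  unfold enc
  have h1 : a * K ^ 2 + y * K + 0 = (y + a * K) * K := by ring
  rw [h1, Nat.mul_mod_left]

theorem nrm2 (K G : ℕ) : nrm K 2 G :=
  ⟨fun h => absurd h (by norm_num), fun h => absurd h (by norm_num)⟩

theorem can_lt {K : ℕ} {t : ℕ → ℕ → ℕ → ℕ → ℕ → ℕ} (ht : ∀ m v x y z, t m v x y z < K)
    (q c : ℕ) (hc : 2 ^ c ≤ K) : ∀ n v X τ, X < K → can K t q c n v X τ < K ^ 3 := by
  have hK : 0 < K := lt_of_lt_of_le (Nat.two_pow_pos c) hc
  have h3 : 0 < K ^ 3 := pow_pos hK 3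
  intro n
  induction n with
  | zero => intro v X τ _; exact h3
  | succ n ih =>
    intro v X τ hX
    unfold can
    split_ifs
    · exact ih _ _ _ hX
    · exact h3
    · exact ih _ _ _ (cut_lt hc (ht _ _ _ _ _) _ _)
    · exact ih _ _ _ (cut_lt hc (ht _ _ _ _ _) _ _)
    · exact h3
    · exact enc_lt hX hK hK
    · exact enc_lt hX (ev_lt ht _ _ _ _ _) (ev_lt ht _ _ _ _ _)
    · exact enc_lt hX (ev_lt ht _ _ _ _ _) hK

section
variable (g : Gad Z) (tst : ℕ → ℕ) (t : ℕ → ℕ → ℕ → ℕ → ℕ → ℕ) (q c : ℕ)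

/-- push for the table 0 -/
theorem el40 (hE : Elem) (hK : 0 < g.K) (e v j n a : ℕ) (γ : ℕ → ℕ) (h0 : γ 0 = enc g.K a 0 0)
    (hr : ∀ τ, 0 < τ → τ < 13 ^ n → γ τ = 0) (S : ℕ → Z) (A : ℕ) :
    Rn g tst t q c ((4, 0, e, 0, v, j, 1) : De) n γ (S, A) =
      some (Function.update S e (g.sh a (S e)), A * 2 ^ c + t 0 v a 0 0 % 2 ^ c) := by
  refine (hE.1 g tst t q c ((4, 0, e, 0, v, j, 1) : De) n γ _ _
    (Or.inr (show (4 : ℕ) ≠ 0 by decide))).mpr ⟨?_, hr⟩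
  have h1 : ∀ G, exec g tst t c ((4, 0, e, 0, v, j, 1) : De) G (S, A) = if nrm g.K 0 G then
    some (Function.update S e (g.sh (gA g.K G) (S e)),
      A * 2 ^ c + t 0 v (gA g.K G) (gY g.K G) (gZ g.K G) % 2 ^ c) else none := fun G => rfl
  rw [h0, h1, if_pos (nrm0 _ _), enc_A hK hK, enc_Y hK hK, enc_Z hK]

/-- pop for the table 0 -/
theorem el50 (hE : Elem) (hK : 0 < g.K) (e v j n a : ℕ) (γ : ℕ → ℕ) (h0 : γ 0 = enc g.K a 0 0)
    (hr : ∀ τ, 0 < τ → τ < 13 ^ n → γ τ = 0) (S : ℕ → Z) (A : ℕ)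
    (hA : t 0 v a 0 0 % 2 ^ c = A % 2 ^ c) :
    Rn g tst t q c ((5, 0, e, 0, v, j, 2) : De) n γ (S, A) =
      some (Function.update S e (g.sh a (S e)), A / 2 ^ c) := by
  refine (hE.1 g tst t q c ((5, 0, e, 0, v, j, 2) : De) n γ _ _
    (Or.inr (show (5 : ℕ) ≠ 0 by decide))).mpr ⟨?_, hr⟩
  have h1 : ∀ G, exec g tst t c ((5, 0, e, 0, v, j, 2) : De) G (S, A) = if nrm g.K 0 G then
    (if t 0 v (gA g.K G) (gY g.K G) (gZ g.K G) % 2 ^ c = A % 2 ^ c then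
      some (Function.update S e (g.sh (gA g.K G) (S e)), A / 2 ^ c) else none) else none :=
    fun G => rfl
  rw [h0, h1, if_pos (nrm0 _ _), enc_A hK hK, enc_Y hK hK, enc_Z hK, if_pos hA]

/-- push for the table 1 -/
theorem el41 (hE : Elem) (hK : 0 < g.K) (e f v j n a y : ℕ) (hy : y < g.K) (γ : ℕ → ℕ)
    (h0 : γ 0 = enc g.K a y 0) (hr : ∀ τ, 0 < τ → τ < 13 ^ n → γ τ = 0) (S : ℕ → Z) (A : ℕ) :
    Rn g tst t q c ((4, 1, e, f, v, j, 1) : De) n γ (S, A) =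
      some (Function.update (Function.update S e (g.sh a (S e))) f (g.sh y (S f)),
        A * 2 ^ c + t 1 v a y 0 % 2 ^ c) := by
  refine (hE.1 g tst t q c ((4, 1, e, f, v, j, 1) : De) n γ _ _
    (Or.inr (show (4 : ℕ) ≠ 0 by decide))).mpr ⟨?_, hr⟩
  have h1 : ∀ G, exec g tst t c ((4, 1, e, f, v, j, 1) : De) G (S, A) = if nrm g.K 1 G then
    some (Function.update (Function.update S e (g.sh (gA g.K G) (S e))) f
        (g.sh (gY g.K G) (S f)),
      A * 2 ^ c + t 1 v (gA g.K G) (gY g.K G) (gZ g.K G) % 2 ^ c) else none := fun G => rfl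
  rw [h0, h1, if_pos (nrm1 _ _ _), enc_A hy hK, enc_Y hy hK, enc_Z hK]

/-- pop for the table 1 -/
theorem el51 (hE : Elem) (hK : 0 < g.K) (e f v j n a y : ℕ) (hy : y < g.K) (γ : ℕ → ℕ)
    (h0 : γ 0 = enc g.K a y 0) (hr : ∀ τ, 0 < τ → τ < 13 ^ n → γ τ = 0) (S : ℕ → Z) (A : ℕ)
    (hA : t 1 v a y 0 % 2 ^ c = A % 2 ^ c) :
    Rn g tst t q c ((5, 1, e, f, v, j, 2) : De) n γ (S, A) =
      some (Function.update (Function.update S e (g.sh a (S e))) f (g.sh y (S f)),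
        A / 2 ^ c) := by
  refine (hE.1 g tst t q c ((5, 1, e, f, v, j, 2) : De) n γ _ _
    (Or.inr (show (5 : ℕ) ≠ 0 by decide))).mpr ⟨?_, hr⟩
  have h1 : ∀ G, exec g tst t c ((5, 1, e, f, v, j, 2) : De) G (S, A) = if nrm g.K 1 G then
    (if t 1 v (gA g.K G) (gY g.K G) (gZ g.K G) % 2 ^ c = A % 2 ^ c then
    some (Function.update (Function.update S e (g.sh (gA g.K G) (S e))) f
        (g.sh (gY g.K G) (S f)), A / 2 ^ c) else none) else none := fun G => rfl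
  rw [h0, h1, if_pos (nrm1 _ _ _), enc_A hy hK, enc_Y hy hK, enc_Z hK, if_pos hA]

/-- the application step -/
theorem el32 (hE : Elem) (e f v i T n a y z : ℕ) (hy : y < g.K) (hz : z < g.K)
    (γ : ℕ → ℕ) (h0 : γ 0 = enc g.K a y z) (hr : ∀ τ, 0 < τ → τ < 13 ^ n → γ τ = 0)
    (S : ℕ → Z) (A : ℕ) (w : Z) (hw : app g tst T (t 2 v a y z) (S i) = some w) :
    Rn g tst t q c ((3, 2, e, f, v, i, T) : De) n γ (S, A) =
      some (Function.update (Function.update (Function.update (Function.update S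
        e (g.sh a (S e))) f (shl g (List.replicate 5 y) (S f)))
        (f + 1) (shl g (List.replicate 9 z) (S (f + 1)))) i w, A) := by
  refine (hE.1 g tst t q c ((3, 2, e, f, v, i, T) : De) n γ _ _
    (Or.inr (show (3 : ℕ) ≠ 0 by decide))).mpr ⟨?_, hr⟩
  have h1 : ∀ G, exec g tst t c ((3, 2, e, f, v, i, T) : De) G (S, A) = if nrm g.K 2 G then
    ((app g tst T (t 2 v (gA g.K G) (gY g.K G) (gZ g.K G)) (S i)).map fun w =>
      (Function.update (Function.update (Function.update (Function.update S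
        e (g.sh (gA g.K G) (S e))) f (shl g (List.replicate 5 (gY g.K G)) (S f)))
        (f + 1) (shl g (List.replicate 9 (gZ g.K G)) (S (f + 1)))) i w, A)) else none :=
    fun G => rfl
  rw [h0, h1, if_pos (nrm2 _ _), enc_A hy hz, enc_Y hy hz, enc_Z hz, hw]
  rfl

/-- a visit of a block root -/
theorem visit {m : ℕ} (hT : TabOK g t c) (hVX : VX g tst t q c m) (v j T : ℕ) (γ : ℕ → ℕ)
    (S : ℕ → Z) (A X : ℕ) (z : Z) (hS : ∀ j, g.V (S j)) (hj : BR q m j) (hX : A % 2 ^ c = X)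
    (hz : app g tst T (ev t q c (q * m) v X) (S j) = some z)
    (hγ : ∀ τ < 13 ^ ((q + 1) * m), γ τ = can g.K t q c ((q + 1) * m) v X τ) :
    Rn g tst t q c (nod v j T) ((q + 1) * m) γ (S, A) =
      some (Function.update S j z, A) := by
  subst hX
  have h1 : Rn g tst t q c (nod v j T) ((q + 1) * m) γ (S, A) =
      Rn g tst t q c (nod v j T) ((q + 1) * m)
        (can g.K t q c ((q + 1) * m) v (A % 2 ^ c)) (S, A) := by
    unfold Rn
    exact runs_congr fun τ hτ => by rw [hγ τ hτ]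
  rw [h1]
  refine (hVX _ v j T S A _ ?_ hS hj).mpr ⟨fun τ _ => rfl, z, hz, rfl⟩
  intro τ
  exact can_lt hT.1 q c hT.2 _ _ _ _
    (lt_of_lt_of_le (Nat.mod_lt _ (Nat.two_pow_pos c)) hT.2)

end

/-- The registers with given contents of four of them. -/
def St (C : ℕ → Z) (e B i : ℕ) (ze zB zc zi : Z) : ℕ → Z := fun j =>
  if j = e then ze else if j = B then zB else if j = B + 1 then zc else if j = i then zi
  else C j

section
variable (C : ℕ → Z) {e B i : ℕ} (ze zB zc zi w : Z)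

theorem St_e : St C e B i ze zB zc zi e = ze := by simp [St]

theorem St_B (h : e < B) : St C e B i ze zB zc zi B = zB := by
  simp [St, h.ne']

theorem St_c (h : e < B) : St C e B i ze zB zc zi (B + 1) = zc := by
  simp [St, show B + 1 ≠ e by omega]

theorem St_i (h1 : i ≠ e) (h2 : i ≠ B) (h3 : i ≠ B + 1) : St C e B i ze zB zc zi i = zi := by
  simp [St, h1, h2, h3]

theorem up_e : Function.update (St C e B i ze zB zc zi) e w = St C e B i w zB zc zi := by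
  funext j
  by_cases h : j = e
  · subst h; simp [St]
  · simp [St, h]

theorem up_B (h : e < B) :
    Function.update (St C e B i ze zB zc zi) B w = St C e B i ze w zc zi := by
  funext j
  by_cases h1 : j = B
  · subst h1; simp [St, h.ne']
  · simp [St, h1]

theorem up_c (h : e < B) :
    Function.update (St C e B i ze zB zc zi) (B + 1) w = St C e B i ze zB w zi := by
  funext j
  by_cases h1 : j = B + 1
  · subst h1; simp [St, show B + 1 ≠ e by omega]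
  · simp [St, h1]

theorem up_i (h1 : i ≠ e) (h2 : i ≠ B) (h3 : i ≠ B + 1) :
    Function.update (St C e B i ze zB zc zi) i w = St C e B i ze zB zc w := by
  funext j
  by_cases h : j = i
  · subst h; simp [St, h1, h2, h3]
  · simp [St, h]

theorem St_V {g : Gad Z} (hC : ∀ j, g.V (C j)) (h1 : g.V ze) (h2 : g.V zB) (h3 : g.V zc)
    (h4 : g.V zi) : ∀ j, g.V (St C e B i ze zB zc zi j) := by
  intro j
  unfold St
  split_ifs <;> first | assumption | exact hC _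

theorem St_init : St C e B i (C e) (C B) (C (B + 1)) (C i) = C := by
  funext j
  unfold St
  split_ifs with h1 h2 h3 h4
  · rw [h1]
  · rw [h2]
  · rw [h3]
  · rw [h4]
  · rfl

theorem St_fin (h1 : i ≠ e) (h2 : i ≠ B) (h3 : i ≠ B + 1) :
    St C e B i ze (C B) (C (B + 1)) zi = Function.update (Function.update C i zi) e ze := by
  funext j
  unfold St
  by_cases h : j = e
  · subst h; simp
  rw [if_neg h, Function.update_of_ne h]
  by_cases h4 : j = i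
  · subst h4; simp [h2, h3]
  rw [Function.update_of_ne h4]
  split_ifs with h5 h6
  · rw [h5]
  · rw [h6]
  · rfl

end

/-- The right guesses in the phases. -/
theorem canB (K : ℕ) (t : ℕ → ℕ → ℕ → ℕ → ℕ → ℕ) (q c m v X d τ : ℕ) (hq : 1 ≤ q)
    (hτ : τ < 13 ^ ((q + 1) * m)) :
    can K t q c ((q + 1) * m + 1) v X (d * 13 ^ ((q + 1) * m) + τ) =
    if d = 1 ∨ d = 11 then can K t q c ((q + 1) * m) (2 * v) (t 0 v X 0 0 % 2 ^ c) τ
    else if d = 4 ∨ d = 8 then can K t q c ((q + 1) * m) (2 * v + 1)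
      (t 1 v X (ev t q c (q * m) (2 * v) (t 0 v X 0 0 % 2 ^ c)) 0 % 2 ^ c) τ
    else if τ ≠ 0 then 0
    else if d = 0 ∨ d = 2 ∨ d = 10 ∨ 12 ≤ d then enc K X 0 0
    else if d = 6 then enc K X (ev t q c (q * m) (2 * v) (t 0 v X 0 0 % 2 ^ c))
      (ev t q c (q * m) (2 * v + 1)
        (t 1 v X (ev t q c (q * m) (2 * v) (t 0 v X 0 0 % 2 ^ c)) 0 % 2 ^ c))
    else enc K X (ev t q c (q * m) (2 * v) (t 0 v X 0 0 % 2 ^ c)) 0 := by
  have hp : 0 < 13 ^ ((q + 1) * m) := by positivity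
  have h1 : (d * 13 ^ ((q + 1) * m) + τ) / 13 ^ ((q + 1) * m) = d := by
    rw [Nat.add_comm, Nat.add_mul_div_right _ _ hp, Nat.div_eq_of_lt hτ, Nat.zero_add]
  have h2 : (d * 13 ^ ((q + 1) * m) + τ) % 13 ^ ((q + 1) * m) = τ := by
    rw [Nat.add_comm, Nat.add_mul_mod_self_right, Nat.mod_eq_of_lt hτ]
  have h3 : (q + 1) * m % (q + 1) = 0 := Nat.mul_mod_right _ _
  have h4 : (q + 1) * m / (q + 1) = m := Nat.mul_div_cancel_left _ (by omega)
  have h5 : ∀ y, cut q c (q * m) y = y % 2 ^ c := by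
    intro y
    unfold cut
    rw [if_pos (Nat.mul_mod_right _ _)]
  have h6 : ¬ (0 = q) := by omega
  rw [can, h1, h2, h3, h4, if_neg h6]
  simp only [Nat.add_zero, h5]

theorem ev1 (t : ℕ → ℕ → ℕ → ℕ → ℕ → ℕ) (q c m v x : ℕ) :
    ev t q c (q * m + 1) v x = t 2 v x (ev t q c (q * m) (2 * v) (t 0 v x 0 0 % 2 ^ c))
      (ev t q c (q * m) (2 * v + 1)
        (t 1 v x (ev t q c (q * m) (2 * v) (t 0 v x 0 0 % 2 ^ c)) 0 % 2 ^ c)) := by
  have h5 : ∀ y, cut q c (q * m) y = y % 2 ^ c := by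
    intro y
    unfold cut
    rw [if_pos (Nat.mul_mod_right _ _)]
  rw [ev]
  simp only [h5]

section
variable (q p v i T : ℕ)

theorem phB0 : phB q p v i T 0 = (4, 0, 3 * (q - 1), 0, v, 3 * q + 4, 1) := rfl
theorem phB1 : phB q p v i T 1 = nod (2 * v) (3 * q + 2 * p) 1 := rfl
theorem phB2 : phB q p v i T 2 = (5, 0, 3 * (q - 1), 0, v, 3 * q + 4, 2) := rfl
theorem phB3 : phB q p v i T 3 = (4, 1, 3 * (q - 1), 3 * q + 2 * p, v, 3 * q + 4, 1) := rfl
theorem phB4 : phB q p v i T 4 = nod (2 * v + 1) (3 * q + 2 * p + 1) 1 := rfl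
theorem phB5 : phB q p v i T 5 = (5, 1, 3 * (q - 1), 3 * q + 2 * p, v, 3 * q + 4, 2) := rfl
theorem phB6 : phB q p v i T 6 = (3, 2, 3 * (q - 1), 3 * q + 2 * p, v, i, T) := rfl
theorem phB7 : phB q p v i T 7 = (4, 1, 3 * (q - 1), 3 * q + 2 * p, v, 3 * q + 4, 1) := rfl
theorem phB8 : phB q p v i T 8 = nod (2 * v + 1) (3 * q + 2 * p + 1) 2 := rfl
theorem phB9 : phB q p v i T 9 = (5, 1, 3 * (q - 1), 3 * q + 2 * p, v, 3 * q + 4, 2) := rfl
theorem phB10 : phB q p v i T 10 = (4, 0, 3 * (q - 1), 0, v, 3 * q + 4, 1) := rfl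
theorem phB11 : phB q p v i T 11 = nod (2 * v) (3 * q + 2 * p) 2 := rfl
theorem phB12 : phB q p v i T 12 = (5, 0, 3 * (q - 1), 0, v, 3 * q + 4, 2) := rfl

end

theorem gKBC : GoalKBC := by
  intro hBl hEl Z g hg tst t q c m hT hq hVX γ v i T C A x zr hC hi hx hγ hz
  have hK : 0 < g.K := hg.K_pos
  have hp2 : 0 < 2 ^ c := Nat.two_pow_pos c
  have hpush : ∀ a : ℕ, (A * 2 ^ c + a % 2 ^ c) % 2 ^ c = a % 2 ^ c := by
    intro a
    rw [Nat.add_comm, Nat.add_mul_mod_self_right, Nat.mod_mod]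
  have hpop : ∀ a : ℕ, (A * 2 ^ c + a % 2 ^ c) / 2 ^ c = A := by
    intro a
    rw [Nat.add_comm, Nat.add_mul_div_right _ _ hp2,
      Nat.div_eq_of_lt (Nat.mod_lt _ hp2), Nat.zero_add]
  have hph : ∀ d, sub q (nod v i T) ((q + 1) * m) d = phB q (m % 2) v i T d :=
    fun d => hEl.2.2.1 q m v i T d hq
  rw [ev1] at hz
  -- names
  set l := t 0 v x 0 0 with hl
  set y := ev t q c (q * m) (2 * v) (l % 2 ^ c) with hy
  set r := t 1 v x y 0 with hr
  set z := ev t q c (q * m) (2 * v + 1) (r % 2 ^ c) with hz0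
  have hyK : y < g.K := ev_lt hT.1 _ _ _ _ _
  have hzK : z < g.K := ev_lt hT.1 _ _ _ _ _
  have hzr : g.V zr := app_V hg (hT.1 _ _ _ _ _) (hC i) hz
  obtain ⟨e, he⟩ : ∃ e, e = 3 * (q - 1) := ⟨_, rfl⟩
  obtain ⟨B, hB⟩ : ∃ B, B = 3 * q + 2 * (m % 2) := ⟨_, rfl⟩
  have heB : e < B := by omega
  have hi' : i ≠ e ∧ i ≠ B ∧ i ≠ B + 1 := by
    rcases hi with hi | hi | hi <;> refine ⟨?_, ?_, ?_⟩ <;> omega
  obtain ⟨hie, hiB, hic⟩ := hi'
  have hBB : BR q m B := Or.inl hB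
  have hBc : BR q m (B + 1) := Or.inr (by rw [hB])
  obtain ⟨n, hn⟩ : ∃ n, n = (q + 1) * m := ⟨_, rfl⟩
  -- the guesses
  have hγd : ∀ d τ, d < 13 → τ < 13 ^ ((q + 1) * m) →
      γ (d * 13 ^ ((q + 1) * m) + τ) =
    if d = 1 ∨ d = 11 then can g.K t q c ((q + 1) * m) (2 * v) (l % 2 ^ c) τ
    else if d = 4 ∨ d = 8 then can g.K t q c ((q + 1) * m) (2 * v + 1) (r % 2 ^ c) τ
    else if τ ≠ 0 then 0
    else if d = 0 ∨ d = 2 ∨ d = 10 ∨ 12 ≤ d then enc g.K x 0 0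
    else if d = 6 then enc g.K x y z else enc g.K x y 0 := by
    intro d τ hd hτ
    rw [hγ, canB g.K t q c m v x d τ hq hτ]
    rw [pow_succ]
    nlinarith
  have hpos : 0 < 13 ^ ((q + 1) * m) := by positivity
  have hg0 : ∀ d < 13, ¬ (d = 1 ∨ d = 11) → ¬ (d = 4 ∨ d = 8) → ∀ τ, 0 < τ →
      τ < 13 ^ ((q + 1) * m) → γ (d * 13 ^ ((q + 1) * m) + τ) = 0 := by
    intro d hd h1 h2 τ h3 h4
    rw [hγd d τ hd h4, if_neg h1, if_neg h2, if_pos (by omega)]
  have hga : ∀ d < 13, d = 0 ∨ d = 2 ∨ d = 10 ∨ 12 ≤ d →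
      γ (d * 13 ^ ((q + 1) * m) + 0) = enc g.K x 0 0 := by
    intro d hd h1
    rw [hγd d 0 hd hpos, if_neg (by omega), if_neg (by omega), if_neg (by omega), if_pos h1]
  have hgb : ∀ d < 13, d = 3 ∨ d = 5 ∨ d = 7 ∨ d = 9 →
      γ (d * 13 ^ ((q + 1) * m) + 0) = enc g.K x y 0 := by
    intro d hd h1
    rw [hγd d 0 hd hpos, if_neg (by omega), if_neg (by omega), if_neg (by omega),
      if_neg (by omega), if_neg (by omega)]
  have hgc : γ (6 * 13 ^ ((q + 1) * m) + 0) = enc g.K x y z := by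
    rw [hγd 6 0 (by omega) hpos, if_neg (by omega), if_neg (by omega), if_neg (by omega),
      if_neg (by omega), if_pos rfl]
  have hgy : ∀ d < 13, d = 1 ∨ d = 11 → ∀ τ < 13 ^ ((q + 1) * m),
      γ (d * 13 ^ ((q + 1) * m) + τ) =
        can g.K t q c ((q + 1) * m) (2 * v) (l % 2 ^ c) τ := by
    intro d hd h1 τ hτ
    rw [hγd d τ hd hτ, if_pos h1]
  have hgz : ∀ d < 13, d = 4 ∨ d = 8 → ∀ τ < 13 ^ ((q + 1) * m),
      γ (d * 13 ^ ((q + 1) * m) + τ) =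
        can g.K t q c ((q + 1) * m) (2 * v + 1) (r % 2 ^ c) τ := by
    intro d hd h1 τ hτ
    rw [hγd d τ hd hτ, if_neg (by omega), if_pos h1]
  -- contents
  obtain ⟨E, hE⟩ : ∃ E : ℕ → Z, ∀ k, E k = shl g (List.replicate k x) (C e) :=
    ⟨_, fun k => rfl⟩
  obtain ⟨Y, hY⟩ : ∃ Y : ℕ → Z, ∀ k, Y k = shl g (List.replicate k y) (g.hd y (C B)) :=
    ⟨_, fun k => rfl⟩
  obtain ⟨W, hW⟩ : ∃ W : ℕ → Z, ∀ k, W k = shl g (List.replicate k z) (g.hd z (C (B + 1))) :=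
    ⟨_, fun k => rfl⟩
  have hsuc : ∀ (a k : ℕ) (u : Z), g.sh a (shl g (List.replicate k a) u) =
      shl g (List.replicate (k + 1) a) u := by
    intro a k u
    unfold shl
    rw [List.replicate_succ', List.foldl_append]
    rfl
  have hE1 : ∀ k, g.sh x (E k) = E (k + 1) := by
    intro k; rw [hE, hE, hsuc]
  have hY1 : ∀ k, g.sh y (Y k) = Y (k + 1) := by
    intro k; rw [hY, hY, hsuc]
  have hY5 : shl g (List.replicate 5 y) (Y 2) = Y 7 := by
    rw [hY, hY]; rfl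
  have hW9 : shl g (List.replicate 9 z) (W 0) = W 9 := by
    rw [hW, hW]; rfl
  have hE0 : E 0 = C e := by rw [hE]; rfl
  have hY0 : Y 0 = g.hd y (C B) := by rw [hY]; rfl
  have hW0 : W 0 = g.hd z (C (B + 1)) := by rw [hW]; rfl
  have hVE : ∀ k, g.V (E k) := fun k => by rw [hE]; exact shr_V hg _ _ hx _ (hC _)
  have hVY : ∀ k, g.V (Y k) := fun k => by
    rw [hY]; exact shr_V hg _ _ hyK _ (hg.hd_V y hyK _ (hC _))
  have hVW : ∀ k, g.V (W k) := fun k => by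
    rw [hW]; exact shr_V hg _ _ hzK _ (hg.hd_V z hzK _ (hC _))
  have hYu : g.un y (Y 9) = some (C B) := by rw [hY]; exact hg.ok9 y hyK _ (hC _)
  have hWu : g.un z (W 9) = some (C (B + 1)) := by rw [hW]; exact hg.ok9 z hzK _ (hC _)
  -- the states
  set S : Z → Z → Z → Z → ℕ → Z := St C e B i with hS
  have hSV : ∀ z1 z2 z3 z4, g.V z1 → g.V z2 → g.V z3 → g.V z4 →
      ∀ j, g.V (S z1 z2 z3 z4 j) := fun z1 z2 z3 z4 h1 h2 h3 h4 =>
    St_V C z1 z2 z3 z4 hC h1 h2 h3 h4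
  rw [hBl]
  refine ⟨fun d => match d with
      | 0 => (S (E 0) (C B) (C (B + 1)) (C i), A)
      | 1 => (S (E 1) (C B) (C (B + 1)) (C i), A * 2 ^ c + l % 2 ^ c)
      | 2 => (S (E 1) (Y 0) (C (B + 1)) (C i), A * 2 ^ c + l % 2 ^ c)
      | 3 => (S (E 2) (Y 0) (C (B + 1)) (C i), A)
      | 4 => (S (E 3) (Y 1) (C (B + 1)) (C i), A * 2 ^ c + r % 2 ^ c)
      | 5 => (S (E 3) (Y 1) (W 0) (C i), A * 2 ^ c + r % 2 ^ c)
      | 6 => (S (E 4) (Y 2) (W 0) (C i), A)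
      | 7 => (S (E 5) (Y 7) (W 9) zr, A)
      | 8 => (S (E 6) (Y 8) (W 9) zr, A * 2 ^ c + r % 2 ^ c)
      | 9 => (S (E 6) (Y 8) (C (B + 1)) zr, A * 2 ^ c + r % 2 ^ c)
      | 10 => (S (E 7) (Y 9) (C (B + 1)) zr, A)
      | 11 => (S (E 8) (Y 9) (C (B + 1)) zr, A * 2 ^ c + l % 2 ^ c)
      | 12 => (S (E 8) (C B) (C (B + 1)) zr, A * 2 ^ c + l % 2 ^ c)
      | _ => (S (E 9) (C B) (C (B + 1)) zr, A), ?_, ?_, ?_⟩
  · show (S (E 0) (C B) (C (B + 1)) (C i), A) = (C, A)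
    rw [hE0, hS, St_init]
  · show (S (E 9) (C B) (C (B + 1)) zr, A) = _
    rw [hS, St_fin C _ _ hie hiB hic, ← he, hE]
  intro d hd
  interval_cases d
  · -- 0
    show Rn g tst t q c (sub q (nod v i T) ((q + 1) * m) 0) ((q + 1) * m) _
      (S (E 0) (C B) (C (B + 1)) (C i), A) =
        some (S (E 1) (C B) (C (B + 1)) (C i), A * 2 ^ c + l % 2 ^ c)
    rw [hph, phB0, el40 g tst t q c hEl hK _ _ _ _ x _ (hga 0 (by omega) (by omega))
      (hg0 0 (by omega) (by omega) (by omega)), ← he, hS, up_e, St_e, hE1]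
  · -- 1
    show Rn g tst t q c (sub q (nod v i T) ((q + 1) * m) 1) ((q + 1) * m) _
      (S (E 1) (C B) (C (B + 1)) (C i), A * 2 ^ c + l % 2 ^ c) =
        some (S (E 1) (Y 0) (C (B + 1)) (C i), A * 2 ^ c + l % 2 ^ c)
    rw [hph, phB1, ← hB, visit g tst t q c hT hVX (2 * v) B 1 _ _ _ (l % 2 ^ c) (Y 0)
      (hSV _ _ _ _ (hVE _) (hC _) (hC _) (hC _)) hBB (hpush l)
      (by rw [hS, St_B _ _ _ _ _ heB, hY0]; rfl) (hgy 1 (by omega) (by omega)), hS,
      up_B _ _ _ _ _ _ heB]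
  · -- 2
    show Rn g tst t q c (sub q (nod v i T) ((q + 1) * m) 2) ((q + 1) * m) _
      (S (E 1) (Y 0) (C (B + 1)) (C i), A * 2 ^ c + l % 2 ^ c) =
        some (S (E 2) (Y 0) (C (B + 1)) (C i), A)
    rw [hph, phB2, el50 g tst t q c hEl hK _ _ _ _ x _ (hga 2 (by omega) (by omega))
      (hg0 2 (by omega) (by omega) (by omega)) _ _ (hpush l).symm, ← he, hS, up_e, St_e, hE1,
      hpop]
  · -- 3
    show Rn g tst t q c (sub q (nod v i T) ((q + 1) * m) 3) ((q + 1) * m) _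
      (S (E 2) (Y 0) (C (B + 1)) (C i), A) =
        some (S (E 3) (Y 1) (C (B + 1)) (C i), A * 2 ^ c + r % 2 ^ c)
    rw [hph, phB3, ← hB, el41 g tst t q c hEl hK _ _ _ _ _ x y hyK _
      (hgb 3 (by omega) (by omega)) (hg0 3 (by omega) (by omega) (by omega)), ← he, hS, up_e,
      St_e, St_B _ _ _ _ _ heB, up_B _ _ _ _ _ _ heB, hE1, hY1]
  · -- 4
    show Rn g tst t q c (sub q (nod v i T) ((q + 1) * m) 4) ((q + 1) * m) _
      (S (E 3) (Y 1) (C (B + 1)) (C i), A * 2 ^ c + r % 2 ^ c) =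
        some (S (E 3) (Y 1) (W 0) (C i), A * 2 ^ c + r % 2 ^ c)
    rw [hph, phB4, ← hB, visit g tst t q c hT hVX (2 * v + 1) (B + 1) 1 _ _ _ (r % 2 ^ c) (W 0)
      (hSV _ _ _ _ (hVE _) (hVY _) (hC _) (hC _)) hBc (hpush r)
      (by rw [hS, St_c _ _ _ _ _ heB, hW0]; rfl) (hgz 4 (by omega) (by omega)), hS,
      up_c _ _ _ _ _ _ heB]
  · -- 5
    show Rn g tst t q c (sub q (nod v i T) ((q + 1) * m) 5) ((q + 1) * m) _
      (S (E 3) (Y 1) (W 0) (C i), A * 2 ^ c + r % 2 ^ c) =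
        some (S (E 4) (Y 2) (W 0) (C i), A)
    rw [hph, phB5, ← hB, el51 g tst t q c hEl hK _ _ _ _ _ x y hyK _
      (hgb 5 (by omega) (by omega)) (hg0 5 (by omega) (by omega) (by omega)) _ _
      (hpush r).symm, ← he, hS, up_e, St_e, St_B _ _ _ _ _ heB, up_B _ _ _ _ _ _ heB, hE1,
      hY1, hpop]
  · -- 6
    show Rn g tst t q c (sub q (nod v i T) ((q + 1) * m) 6) ((q + 1) * m) _
      (S (E 4) (Y 2) (W 0) (C i), A) = some (S (E 5) (Y 7) (W 9) zr, A)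
    rw [hph, phB6, ← hB, el32 g tst t q c hEl _ _ _ _ _ _ x y z hyK hzK _ hgc
      (hg0 6 (by omega) (by omega) (by omega)) _ _ zr
      (by rw [hS, St_i _ _ _ _ _ hie hiB hic]; exact hz), ← he, hS, St_e, St_B _ _ _ _ _ heB,
      St_c _ _ _ _ _ heB, up_e, up_B _ _ _ _ _ _ heB, up_c _ _ _ _ _ _ heB,
      up_i _ _ _ _ _ _ hie hiB hic, hE1, hY5, hW9]
  · -- 7
    show Rn g tst t q c (sub q (nod v i T) ((q + 1) * m) 7) ((q + 1) * m) _
      (S (E 5) (Y 7) (W 9) zr, A) = some (S (E 6) (Y 8) (W 9) zr, A * 2 ^ c + r % 2 ^ c)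
    rw [hph, phB7, ← hB, el41 g tst t q c hEl hK _ _ _ _ _ x y hyK _
      (hgb 7 (by omega) (by omega)) (hg0 7 (by omega) (by omega) (by omega)), ← he, hS, up_e,
      St_e, St_B _ _ _ _ _ heB, up_B _ _ _ _ _ _ heB, hE1, hY1]
  · -- 8
    show Rn g tst t q c (sub q (nod v i T) ((q + 1) * m) 8) ((q + 1) * m) _
      (S (E 6) (Y 8) (W 9) zr, A * 2 ^ c + r % 2 ^ c) =
        some (S (E 6) (Y 8) (C (B + 1)) zr, A * 2 ^ c + r % 2 ^ c)
    rw [hph, phB8, ← hB, visit g tst t q c hT hVX (2 * v + 1) (B + 1) 2 _ _ _ (r % 2 ^ c)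
      (C (B + 1)) (hSV _ _ _ _ (hVE _) (hVY _) (hVW _) hzr) hBc (hpush r)
      (by rw [hS, St_c _ _ _ _ _ heB]; exact hWu) (hgz 8 (by omega) (by omega)), hS,
      up_c _ _ _ _ _ _ heB]
  · -- 9
    show Rn g tst t q c (sub q (nod v i T) ((q + 1) * m) 9) ((q + 1) * m) _
      (S (E 6) (Y 8) (C (B + 1)) zr, A * 2 ^ c + r % 2 ^ c) =
        some (S (E 7) (Y 9) (C (B + 1)) zr, A)
    rw [hph, phB9, ← hB, el51 g tst t q c hEl hK _ _ _ _ _ x y hyK _
      (hgb 9 (by omega) (by omega)) (hg0 9 (by omega) (by omega) (by omega)) _ _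
      (hpush r).symm, ← he, hS, up_e, St_e, St_B _ _ _ _ _ heB, up_B _ _ _ _ _ _ heB, hE1,
      hY1, hpop]
  · -- 10
    show Rn g tst t q c (sub q (nod v i T) ((q + 1) * m) 10) ((q + 1) * m) _
      (S (E 7) (Y 9) (C (B + 1)) zr, A) =
        some (S (E 8) (Y 9) (C (B + 1)) zr, A * 2 ^ c + l % 2 ^ c)
    rw [hph, phB10, el40 g tst t q c hEl hK _ _ _ _ x _ (hga 10 (by omega) (by omega))
      (hg0 10 (by omega) (by omega) (by omega)), ← he, hS, up_e, St_e, hE1]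
  · -- 11
    show Rn g tst t q c (sub q (nod v i T) ((q + 1) * m) 11) ((q + 1) * m) _
      (S (E 8) (Y 9) (C (B + 1)) zr, A * 2 ^ c + l % 2 ^ c) =
        some (S (E 8) (C B) (C (B + 1)) zr, A * 2 ^ c + l % 2 ^ c)
    rw [hph, phB11, ← hB, visit g tst t q c hT hVX (2 * v) B 2 _ _ _ (l % 2 ^ c) (C B)
      (hSV _ _ _ _ (hVE _) (hVY _) (hC _) hzr) hBB (hpush l)
      (by rw [hS, St_B _ _ _ _ _ heB]; exact hYu) (hgy 11 (by omega) (by omega)), hS,
      up_B _ _ _ _ _ _ heB]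
  · -- 12
    show Rn g tst t q c (sub q (nod v i T) ((q + 1) * m) 12) ((q + 1) * m) _
      (S (E 8) (C B) (C (B + 1)) zr, A * 2 ^ c + l % 2 ^ c) =
        some (S (E 9) (C B) (C (B + 1)) zr, A)
    rw [hph, phB12, el50 g tst t q c hEl hK _ _ _ _ x _ (hga 12 (by omega) (by omega))
      (hg0 12 (by omega) (by omega) (by omega)) _ _ (hpush l).symm, ← he, hS, up_e, St_e, hE1,
      hpop]

end Pool.Agent.Helper90.CTG
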